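import Mathlib

/-!
# A poor free filter on `ℕ` that is not generated by any statistical measure

The quotient of `P(ℕ)` by the dual ideal is arranged to contain, as a dense subset, an algebra of
Gaifman type: it is `σ`-linked (so the filter is poor) but carries no strictly positive finitely
additive measure.
-/

open Set Filter Topology

namespace Pool.Agent.Results.MP_d359f0_an.PoorNotMeasure

/-- A filter on `ℕ` is poor if every family of pairwise almost disjoint sets in its grill is
countable. -/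
def IsPoor (F : Filter ℕ) : Prop :=
  ∀ 𝒜 : Set (Set ℕ), (∀ A ∈ 𝒜, Aᶜ ∉ F) → (∀ A ∈ 𝒜, ∀ B ∈ 𝒜, A ≠ B → (A ∩ B)ᶜ ∈ F) →
    𝒜.Countable

/-- A statistical measure: a finitely additive probability measure defined on all subsets of `ℕ`
and vanishing on singletons. -/
structure IsStatMeasure (μ : Set ℕ → ℝ) : Prop where
  nonneg : ∀ A, 0 ≤ μ A
  additive : ∀ A B, Disjoint A B → μ (A ∪ B) = μ A + μ B
  total : μ univ = 1
  singleton : ∀ k, μ {k} = 0

/-- The first `n` values of `x`. -/
def res (x : ℕ → ℕ) (n : ℕ) : List ℕ := (List.range n).map x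

lemma res_eq_iff {x y : ℕ → ℕ} {n : ℕ} : res x n = res y n ↔ ∀ i < n, x i = y i := by
  unfold res
  constructor
  · intro h i hi
    have := List.map_inj_left.mp h i (List.mem_range.mpr hi)
    exact this
  · intro h
    apply List.map_inj_left.mpr
    intro i hi
    exact h i (List.mem_range.mp hi)

lemma res_mono {x y : ℕ → ℕ} {m n : ℕ} (hmn : m ≤ n) (h : res x n = res y n) :
    res x m = res y m := by
  rw [res_eq_iff] at *
  exact fun i hi => h i (hi.trans_le hmn)

lemma res_length (x : ℕ → ℕ) (n : ℕ) : (res x n).length = n := by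
  simp [res]

/-- finite sets of points of the Baire space satisfying the Gaifman constraints -/
def Good (F : Finset (ℕ → ℕ)) : Prop :=
  ∀ (l : ℕ) (s : List ℕ), ((F.filter (fun y => res y l = s)).image (fun y => y l)).card ≤ l + 1

lemma Good.mono {F G : Finset (ℕ → ℕ)} (hG : Good G) (h : F ⊆ G) : Good F := by
  intro l s
  refine le_trans (Finset.card_le_card ?_) (hG l s)
  exact Finset.image_subset_image (Finset.filter_subset_filter _ h)

/-- The independent family. -/
def A (x : ℕ → ℕ) : Set ℕ :=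
  {m | ∃ s : Finset (List ℕ), Encodable.encode s = m ∧ ∃ n, res x n ∈ s}

/-- the set `⋂_{x ∈ F} A x` minus `⋃_{x ∈ G} A x`. -/
def a (F G : Finset (ℕ → ℕ)) : Set ℕ := {m | (∀ x ∈ F, m ∈ A x) ∧ ∀ y ∈ G, m ∉ A y}

lemma eventually_separated (F G : Finset (ℕ → ℕ)) (h : Disjoint F G) :
    ∀ᶠ n in atTop, ∀ x ∈ F, ∀ y ∈ G, res x n ≠ res y n := by
  rw [Filter.eventually_all_finset]
  intro x hx
  rw [Filter.eventually_all_finset]
  intro y hy
  have hne : x ≠ y := fun e => (Finset.disjoint_left.mp h hx) (e ▸ hy)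
  obtain ⟨i, hi⟩ := Function.ne_iff.mp hne
  filter_upwards [eventually_gt_atTop i] with n hn hcon
  exact hi (res_eq_iff.mp hcon i hn)

lemma a_infinite (F G : Finset (ℕ → ℕ)) (h : Disjoint F G) : (a F G).Infinite := by
  classical
  -- an extra point
  obtain ⟨v, hv⟩ := Infinite.exists_notMem_finset (F ∪ G)
  have hvF : v ∉ F := fun h => hv (Finset.mem_union_left _ h)
  have hvG : v ∉ G := fun h => hv (Finset.mem_union_right _ h)
  have hd : Disjoint (insert v F) G := by
    rw [Finset.disjoint_insert_left]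
    exact ⟨hvG, h⟩
  obtain ⟨N, hN⟩ := eventually_atTop.mp (eventually_separated _ _ hd)
  set g : ℕ → ℕ := fun n => Encodable.encode ((insert v F).image (fun x => res x (N + n))) with hg
  have hgm : ∀ n, g n ∈ a F G := by
    intro n
    constructor
    · intro x hx
      exact ⟨_, rfl, N + n, Finset.mem_image_of_mem _ (Finset.mem_insert_of_mem hx)⟩
    · rintro y hy ⟨s, hs, k, hk⟩
      have := Encodable.encode_injective hs
      rw [this, Finset.mem_image] at hk
      obtain ⟨x, hx, hxk⟩ := hk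
      have hl : N + n = k := by
        have := congrArg List.length hxk
        simpa [res_length] using this
      subst hl
      exact hN (N + n) (Nat.le_add_right _ _) x hx y hy hxk
  have hinj : Function.Injective g := by
    intro n n' hnn
    have h1 := Encodable.encode_injective hnn
    have h2 : res v (N + n) ∈ (insert v F).image (fun x => res x (N + n')) := by
      rw [← h1]
      exact Finset.mem_image_of_mem _ (Finset.mem_insert_self _ _)
    rw [Finset.mem_image] at h2
    obtain ⟨x, _, hx⟩ := h2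
    have := congrArg List.length hx
    simp only [res_length] at this
    omega
  exact Set.infinite_of_injective_forall_mem hinj hgm

/-- the starting filter -/
def F₀ : Filter ℕ where
  sets := {X | ∃ (H : Finset (Finset (ℕ → ℕ))) (E : Set ℕ), (∀ B ∈ H, ¬ Good B) ∧ E.Finite ∧
    Xᶜ ⊆ E ∪ ⋃ B ∈ H, a B ∅}
  univ_sets := ⟨∅, ∅, by simp, finite_empty, by simp⟩
  sets_of_superset := by
    rintro X Y ⟨H, E, hH, hE, hX⟩ hXY
    exact ⟨H, E, hH, hE, (compl_subset_compl.mpr hXY).trans hX⟩
  inter_sets := by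
    classical
    rintro X Y ⟨H, E, hH, hE, hX⟩ ⟨H', E', hH', hE', hY⟩
    refine ⟨H ∪ H', E ∪ E', ?_, hE.union hE', ?_⟩
    · intro B hB
      rcases Finset.mem_union.mp hB with h | h
      · exact hH B h
      · exact hH' B h
    · rw [compl_inter]
      intro m hm
      rcases hm with hm | hm
      · rcases hX hm with h | h
        · exact Or.inl (Or.inl h)
        · right
          simp only [mem_iUnion] at h ⊢
          obtain ⟨B, hB, hmB⟩ := h
          exact ⟨B, Finset.mem_union_left _ hB, hmB⟩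
      · rcases hY hm with h | h
        · exact Or.inl (Or.inr h)
        · right
          simp only [mem_iUnion] at h ⊢
          obtain ⟨B, hB, hmB⟩ := h
          exact ⟨B, Finset.mem_union_right _ hB, hmB⟩

lemma F₀_le_cofinite : F₀ ≤ cofinite := by
  intro X hX
  exact ⟨∅, Xᶜ, by simp, hX, by simp⟩

lemma bad_mem_F₀ {B : Finset (ℕ → ℕ)} (hB : ¬ Good B) : (a B ∅)ᶜ ∈ F₀ := by
  refine ⟨{B}, ∅, ?_, finite_empty, ?_⟩
  · intro B' hB'
    rw [Finset.mem_singleton] at hB'
    exact hB' ▸ hB
  · simp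

/-- the property preserved by the construction -/
def P (𝓕 : Filter ℕ) : Prop :=
  ∀ F G : Finset (ℕ → ℕ), Good F → Disjoint F G → (a F G)ᶜ ∉ 𝓕

lemma P_F₀ : P F₀ := by
  classical
  rintro F G hF hFG ⟨H, E, hH, hE, hsub⟩
  rw [compl_compl] at hsub
  have hex : ∀ B ∈ H, ∃ t ∈ B, t ∉ F := by
    intro B hB
    by_contra hcon
    push Not at hcon
    exact hH B hB (hF.mono hcon)
  choose! t htB htF using hex
  set G' : Finset (ℕ → ℕ) := G ∪ H.image t with hG'
  have hd : Disjoint F G' := by
    rw [hG', Finset.disjoint_union_right]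
    refine ⟨hFG, ?_⟩
    rw [Finset.disjoint_right]
    intro x hx
    rw [Finset.mem_image] at hx
    obtain ⟨B, hB, rfl⟩ := hx
    exact htF B hB
  apply a_infinite F G' hd
  apply hE.subset
  intro m hm
  have hm' : m ∈ a F G := ⟨hm.1, fun y hy => hm.2 y (Finset.mem_union_left _ hy)⟩
  rcases hsub hm' with h | h
  · exact h
  · exfalso
    simp only [mem_iUnion] at h
    obtain ⟨B, hB, hmB⟩ := h
    exact hm.2 (t B) (Finset.mem_union_right _ (Finset.mem_image_of_mem _ hB))
      (hmB.1 (t B) (htB B hB))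

lemma exists_minimal : ∃ 𝓕 : Filter ℕ, 𝓕 ≤ F₀ ∧ P 𝓕 ∧ ∀ 𝓖 : Filter ℕ, 𝓖 ≤ 𝓕 → P 𝓖 → 𝓕 ≤ 𝓖 := by
  have := @zorn_le_nonempty₀ (Filter ℕ)ᵒᵈ _ {𝓕 | P (OrderDual.ofDual 𝓕)} ?_
    (OrderDual.toDual F₀) P_F₀
  · obtain ⟨𝓕, h1, h2, h3⟩ := this
    refine ⟨OrderDual.ofDual 𝓕, h1, h2, ?_⟩
    intro 𝓖 hle hP
    exact h3 (y := OrderDual.toDual 𝓖) hP hle
  · intro c hcS hc y hy
    set c' : Set (Filter ℕ) := {𝓕 | OrderDual.toDual 𝓕 ∈ c} with hc'
    have hne : c'.Nonempty := ⟨OrderDual.ofDual y, hy⟩
    have hdir : DirectedOn (· ≥ ·) c' := by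
      intro 𝓕 h𝓕 𝓖 h𝓖
      rcases hc.total h𝓕 h𝓖 with h | h
      · exact ⟨𝓖, h𝓖, h, le_refl _⟩
      · exact ⟨𝓕, h𝓕, le_refl _, h⟩
    refine ⟨OrderDual.toDual (sInf c'), ?_, ?_⟩
    · intro F G hF hFG hmem
      change (a F G)ᶜ ∈ sInf c' at hmem
      rw [sInf_eq_iInf, Filter.mem_biInf_of_directed hdir hne] at hmem
      obtain ⟨𝓕, h𝓕, hmem⟩ := hmem
      exact hcS h𝓕 F G hF hFG hmem
    · intro z hz
      exact sInf_le (show OrderDual.ofDual z ∈ c' from hz)

/-- two disjoint pairs of the same type are compatible -/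
lemma good_union {F F' : Finset (ℕ → ℕ)} [DecidableEq (ℕ → ℕ)] (hF : Good F) {N : ℕ}
    (hcard : F.card = F'.card) (hN : 2 * F.card ≤ N)
    (htr : F.image (fun x => res x N) = F'.image (fun x => res x N)) : Good (F ∪ F') := by
  intro l s
  by_cases hl : l < N
  · refine le_trans (Finset.card_le_card ?_) (hF l s)
    intro j hj
    rw [Finset.mem_image] at hj ⊢
    obtain ⟨y, hy, rfl⟩ := hj
    rw [Finset.mem_filter, Finset.mem_union] at hy
    obtain ⟨hy1, hy2⟩ := hy
    rcases hy1 with hy1 | hy1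
    · exact ⟨y, Finset.mem_filter.mpr ⟨hy1, hy2⟩, rfl⟩
    · have : res y N ∈ F.image (fun x => res x N) := by
        rw [htr]
        exact Finset.mem_image_of_mem _ hy1
      rw [Finset.mem_image] at this
      obtain ⟨x, hx, hxy⟩ := this
      refine ⟨x, Finset.mem_filter.mpr ⟨hx, ?_⟩, ?_⟩
      · rw [← hy2]
        exact res_mono hl.le hxy
      · exact res_eq_iff.mp hxy l hl
  · have h1 : ((F ∪ F').filter (fun y => res y l = s)).card ≤ (F ∪ F').card :=
      Finset.card_filter_le _ _
    have h2 := Finset.card_union_le F F'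
    have h3 : (((F ∪ F').filter (fun y => res y l = s)).image (fun y => y l)).card ≤
      ((F ∪ F').filter (fun y => res y l = s)).card := Finset.card_image_le
    omega

lemma poor_of_minimal {𝓕 : Filter ℕ} (hP : P 𝓕) (hmin : ∀ 𝓖 : Filter ℕ, 𝓖 ≤ 𝓕 → P 𝓖 → 𝓕 ≤ 𝓖) :
    IsPoor 𝓕 := by
  classical
  intro 𝒜 hgrill had
  -- density
  have hdense : ∀ X : Set ℕ, Xᶜ ∉ 𝓕 → ∃ F G : Finset (ℕ → ℕ), Good F ∧ Disjoint F G ∧
      {m | m ∈ a F G → m ∈ X} ∈ 𝓕 := by
    intro X hX
    by_contra hcon
    push Not at hcon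
    have hP' : P (𝓕 ⊓ 𝓟 Xᶜ) := by
      intro F G hF hFG hmem
      rw [Filter.mem_inf_principal] at hmem
      apply hcon F G hF hFG
      filter_upwards [hmem] with m hm hma
      by_contra hmX
      exact hm hmX hma
    have := hmin _ inf_le_left hP'
    apply hX
    exact this (Filter.mem_inf_of_right (Filter.mem_principal_self _))
  choose! F G hF hFG hsub using hdense
  have hsep : ∀ X, Xᶜ ∉ 𝓕 → ∃ N, 2 * (F X).card ≤ N ∧
      ∀ x ∈ F X, ∀ y ∈ G X, res x N ≠ res y N := by
    intro X hX
    have h1 := eventually_separated _ _ (hFG X hX)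
    obtain ⟨N, hN1, hN2⟩ := (h1.and (eventually_ge_atTop (2 * (F X).card))).exists
    exact ⟨N, hN2, hN1⟩
  choose! N hN1 hN2 using hsep
  -- the type map
  set τ : Set ℕ → ℕ × ℕ × Finset (List ℕ) := fun X =>
    ((F X).card, N X, (F X).image (fun x => res x (N X))) with hτ
  have hinj : InjOn τ 𝒜 := by
    intro X hX Y hY hXY
    by_contra hne
    have gX := hgrill X hX
    have gY := hgrill Y hY
    simp only [hτ, Prod.mk.injEq] at hXY
    obtain ⟨e1, e2, e3⟩ := hXY
    rw [← e2] at e3
    have hgood : Good (F X ∪ F Y) := good_union (hF X gX) e1 (hN1 X gX) e3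
    have hdisj : Disjoint (F X ∪ F Y) (G X ∪ G Y) := by
      rw [Finset.disjoint_union_left, Finset.disjoint_union_right, Finset.disjoint_union_right]
      refine ⟨⟨hFG X gX, ?_⟩, ?_, hFG Y gY⟩
      · rw [Finset.disjoint_left]
        intro x hx hxG
        have : res x (N X) ∈ (F Y).image (fun x => res x (N X)) := by
          rw [← e3]
          exact Finset.mem_image_of_mem _ hx
        rw [Finset.mem_image] at this
        obtain ⟨y, hy, hyx⟩ := this
        rw [e2] at hyx
        exact hN2 Y gY y hy x hxG hyx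
      · rw [Finset.disjoint_left]
        intro x hx hxG
        have : res x (N X) ∈ (F X).image (fun x => res x (N X)) := by
          rw [e3]
          exact Finset.mem_image_of_mem _ hx
        rw [Finset.mem_image] at this
        obtain ⟨y, hy, hyx⟩ := this
        exact hN2 X gX y hy x hxG hyx
    apply hP _ _ hgood hdisj
    filter_upwards [hsub X gX, hsub Y gY, had X hX Y hY hne] with m h1 h2 h3 hm
    apply h3
    refine ⟨h1 ⟨fun x hx => hm.1 x (Finset.mem_union_left _ hx),
      fun y hy => hm.2 y (Finset.mem_union_left _ hy)⟩,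
      h2 ⟨fun x hx => hm.1 x (Finset.mem_union_right _ hx),
      fun y hy => hm.2 y (Finset.mem_union_right _ hy)⟩⟩
  exact Set.MapsTo.countable_of_injOn (mapsTo_image τ 𝒜) hinj (Set.to_countable _)

section measure

variable {μ : Set ℕ → ℝ} (hμ : IsStatMeasure μ)

include hμ

lemma mu_mono {X Y : Set ℕ} (h : X ⊆ Y) : μ X ≤ μ Y := by
  have h1 := hμ.additive X (Y \ X) disjoint_sdiff_right
  rw [union_sdiff_cancel h] at h1
  have := hμ.nonneg (Y \ X)
  linarith

lemma mu_empty : μ ∅ = 0 := by
  have h1 := hμ.additive ∅ ∅ (disjoint_empty _)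
  simp only [union_self] at h1
  linarith

lemma mu_compl (X : Set ℕ) : μ Xᶜ = 1 - μ X := by
  have h1 := hμ.additive X Xᶜ disjoint_compl_right
  rw [union_compl_self, hμ.total] at h1
  linarith

/-- finite additivity over patterns -/
lemma mu_preimage {α : Type*} [DecidableEq α] (π : ℕ → α) (S : Finset α) :
    μ (π ⁻¹' (S : Set α)) = ∑ s ∈ S, μ (π ⁻¹' {s}) := by
  induction S using Finset.induction_on with
  | empty => simp [mu_empty hμ]
  | insert s S hs ih =>
    rw [Finset.sum_insert hs, ← ih, ← hμ.additive]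
    · congr 1
      ext m
      simp
    · rw [Set.disjoint_left]
      intro m hm hm'
      simp only [mem_preimage, mem_singleton_iff, Finset.mem_coe] at hm hm'
      exact hs (hm ▸ hm')

/-- if every intersection of more than `b` of the sets is null then the measures sum to at most
`b`. -/
lemma sum_le {ι : Type*} [DecidableEq ι] (S₀ : Finset ι) (B : ι → Set ℕ) (b : ℕ)
    (hb : ∀ S ⊆ S₀, b < S.card → μ {m | ∀ i ∈ S, m ∈ B i} = 0) :
    ∑ i ∈ S₀, μ (B i) ≤ b := by
  classical
  set π : ℕ → Finset ι := fun m => S₀.filter (fun i => m ∈ B i) with hπ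
  have h1 : ∀ i ∈ S₀, μ (B i) = ∑ S ∈ S₀.powerset.filter (fun S => i ∈ S), μ (π ⁻¹' {S}) := by
    intro i hi
    rw [← mu_preimage hμ]
    congr 1
    ext m
    simp only [mem_preimage, Finset.mem_coe, Finset.mem_filter, Finset.mem_powerset, hπ,
      Finset.filter_subset, true_and]
    exact ⟨fun h => ⟨hi, h⟩, fun h => h.2⟩
  have h2 : ∑ S ∈ S₀.powerset, μ (π ⁻¹' {S}) = 1 := by
    rw [← mu_preimage hμ, ← hμ.total]
    congr 1
    ext m
    simp only [mem_preimage, Finset.mem_coe, Finset.mem_powerset, hπ,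
      Finset.filter_subset, mem_univ]
  rw [Finset.sum_congr rfl h1]
  have h3 : ∑ i ∈ S₀, ∑ S ∈ S₀.powerset.filter (fun S => i ∈ S), μ (π ⁻¹' {S}) =
      ∑ S ∈ S₀.powerset, (S.card : ℝ) * μ (π ⁻¹' {S}) := by
    simp_rw [Finset.sum_filter]
    rw [Finset.sum_comm]
    apply Finset.sum_congr rfl
    intro S hS
    rw [← Finset.sum_filter, Finset.sum_const, nsmul_eq_mul]
    congr 2
    congr 1
    rw [Finset.mem_powerset] at hS
    rw [Finset.filter_mem_eq_inter]
    exact Finset.inter_eq_right.mpr hS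
  rw [h3]
  calc ∑ S ∈ S₀.powerset, (S.card : ℝ) * μ (π ⁻¹' {S})
      ≤ ∑ S ∈ S₀.powerset, (b : ℝ) * μ (π ⁻¹' {S}) := by
        apply Finset.sum_le_sum
        intro S hS
        rw [Finset.mem_powerset] at hS
        have hn := hμ.nonneg (π ⁻¹' {S})
        by_cases hc : S.card ≤ b
        · gcongr
        · push Not at hc
          have h4 := hb S hS hc
          have h5 : μ (π ⁻¹' {S}) ≤ μ {m | ∀ i ∈ S, m ∈ B i} := by
            apply mu_mono hμ
            intro m hm i hi
            simp only [mem_preimage, mem_singleton_iff] at hm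
            rw [← hm, hπ, Finset.mem_filter] at hi
            exact hi.2
          have h6 : μ (π ⁻¹' {S}) = 0 := le_antisymm (h5.trans h4.le) hn
          rw [h6]
          simp
    _ = b := by
        rw [← Finset.mul_sum, h2, mul_one]

end measure

lemma good_singleton (x : ℕ → ℕ) : Good {x} := by
  intro l s
  refine le_trans Finset.card_image_le ?_
  refine le_trans (Finset.card_filter_le _ _) ?_
  simp

/-- no measure -/
lemma no_measure {𝓕 : Filter ℕ} (h0 : 𝓕 ≤ F₀) (hP : P 𝓕) {μ : Set ℕ → ℝ}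
    (hμ : IsStatMeasure μ) (hgen : ∀ X, X ∈ 𝓕 ↔ μ X = 1) : False := by
  classical
  have hpos : ∀ x, 0 < μ (A x) := by
    intro x
    have h1 : (a {x} ∅)ᶜ ∉ 𝓕 := hP {x} ∅ (good_singleton x) (by simp)
    have h2 : a {x} ∅ = A x := by
      ext m
      simp [a]
    rw [h2, hgen, mu_compl hμ] at h1
    have h3 := hμ.nonneg (A x)
    rcases h3.lt_or_eq with h | h
    · exact h
    · exfalso
      apply h1
      rw [← h]
      ring
  -- Baire category
  set T : ℕ → Set (ℕ → ℕ) := fun m => {x | 1 / ((m : ℝ) + 1) < μ (A x)} with hT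
  have hcov : ⋃ m, closure (T m) = univ := by
    rw [eq_univ_iff_forall]
    intro x
    obtain ⟨m, hm⟩ := exists_nat_one_div_lt (hpos x)
    exact mem_iUnion.mpr ⟨m, subset_closure hm⟩
  obtain ⟨m, hm⟩ := nonempty_interior_of_iUnion_of_closed (fun m => isClosed_closure) hcov
  obtain ⟨v, hv⟩ := hm
  obtain ⟨U, ⟨y, l, rfl⟩, hyU, hUsub⟩ :=
    (PiNat.isTopologicalBasis_cylinders (fun _ : ℕ => ℕ)).exists_subset_of_mem_open hv
      isOpen_interior
  -- points in the subcylinders
  have hpt : ∀ j : ℕ, ∃ t : ℕ → ℕ, t ∈ T m ∧ res t l = res y l ∧ t l = j := by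
    intro j
    set z : ℕ → ℕ := Function.update y l j with hz
    have hzl : z l = j := by simp [hz]
    have hzi : ∀ i < l, z i = y i := by
      intro i hi
      simp [hz, hi.ne]
    have hzc : z ∈ PiNat.cylinder y l := by
      rw [PiNat.mem_cylinder_iff]
      exact hzi
    have hzcl : z ∈ closure (T m) := interior_subset (hUsub hzc)
    rw [mem_closure_iff] at hzcl
    obtain ⟨t, ht1, ht2⟩ := hzcl (PiNat.cylinder z (l + 1))
      (PiNat.isOpen_cylinder (fun _ : ℕ => ℕ) z (l + 1)) (PiNat.self_mem_cylinder z (l + 1))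
    rw [PiNat.mem_cylinder_iff] at ht1
    refine ⟨t, ht2, ?_, ?_⟩
    · rw [res_eq_iff]
      intro i hi
      rw [ht1 i (by omega), hzi i hi]
    · rw [ht1 l (by omega), hzl]
  choose t ht1 ht2 ht3 using hpt
  have htinj : Function.Injective t := by
    intro i j hij
    have := congrArg (fun f => f l) hij
    simpa [ht3] using this
  set M : ℕ := (m + 1) * (l + 2) with hM
  have hsum := sum_le hμ (Finset.range M) (fun j => A (t j)) (l + 1) ?_
  · have h4 : ∑ j ∈ Finset.range M, (1 / ((m : ℝ) + 1)) ≤ ∑ j ∈ Finset.range M, μ (A (t j)) := by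
      apply Finset.sum_le_sum
      intro j _
      exact (ht1 j).le
    rw [Finset.sum_const, Finset.card_range, nsmul_eq_mul] at h4
    have h5 : (M : ℝ) * (1 / ((m : ℝ) + 1)) = l + 2 := by
      rw [hM]
      push_cast
      field_simp
    push_cast at hsum
    linarith
  · intro S _ hcard
    have hbad : ¬ Good (S.image t) := by
      intro hg
      have h6 := hg l (res y l)
      have h7 : ((S.image t).filter (fun x => res x l = res y l)) = S.image t := by
        apply Finset.filter_true_of_mem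
        intro x hx
        rw [Finset.mem_image] at hx
        obtain ⟨j, _, rfl⟩ := hx
        exact ht2 j
      rw [h7, Finset.image_image] at h6
      have h8 : S.image ((fun x : ℕ → ℕ => x l) ∘ t) = S := by
        have : ((fun x : ℕ → ℕ => x l) ∘ t) = id := by
          funext j
          exact ht3 j
        rw [this, Finset.image_id]
      rw [h8] at h6
      omega
    have h9 := h0 (bad_mem_F₀ hbad)
    rw [hgen, mu_compl hμ] at h9
    have h10 : μ (a (S.image t) ∅) = 0 := by linarith
    rw [← h10]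
    congr 1
    ext n
    simp [a]

/-- There is a poor free filter on `ℕ` which is not generated by any statistical measure. -/
theorem result : ∃ F : Filter ℕ, F.NeBot ∧ F ≤ cofinite ∧ IsPoor F ∧
    ¬ ∃ μ : Set ℕ → ℝ, IsStatMeasure μ ∧ ∀ X : Set ℕ, X ∈ F ↔ μ X = 1 := by
  obtain ⟨𝓕, h0, hP, hmin⟩ := exists_minimal
  refine ⟨𝓕, ?_, h0.trans F₀_le_cofinite, poor_of_minimal hP hmin, ?_⟩
  · rw [Filter.neBot_iff]
    intro hbot
    apply hP ∅ ∅ _ (by simp)
    · rw [hbot]
      exact Filter.mem_bot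
    · exact (good_singleton (fun _ => 0)).mono (by simp)
  · rintro ⟨μ, hμ, hgen⟩
    exact no_measure h0 hP hμ hgen

end Pool.Agent.Results.MP_d359f0_an.PoorNotMeasure
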